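import Pool.Agent.helper82.CH.SpecA

/-!
# Project CH (MP_2e0e07_nt), row MAX: the primitive character
-/

set_option autoImplicit false

open NumberField Complex Pool.Agent.UN

namespace Pool.Agent.CH

theorem MAX_Ar (F : Type) [Field F] [NumberField F] (x : 𝓞 F) : Ar (K := F) 0 0 x = 1 := by
  unfold Ar ph
  simp

theorem MAX_map_pow (F : Type) [Field F] [NumberField F] (χ : Ideal (𝓞 F) → ℂ) (h1 : χ ⊤ = 1) (hm : ∀ a b : Ideal (𝓞 F), χ (a * b) = χ a * χ b)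
    (y : 𝓞 F) (n : ℕ) : χ (Ideal.span {y ^ n}) = χ (Ideal.span {y}) ^ n := by
  induction n with
  | zero => rw [pow_zero, pow_zero, Ideal.span_singleton_one, h1]
  | succ n ih => rw [pow_succ, pow_succ, ← Ideal.span_singleton_mul_span_singleton, hm, ih]

/-- a power of an element prime to `q` is one modulo `q` -/
theorem MAX_pow (F : Type) [Field F] [NumberField F] (q : Ideal (𝓞 F)) (hq : q ≠ ⊥) (y : 𝓞 F) (hy : Ideal.span {y} ⊔ q = ⊤) :
    ∃ m : ℕ, y ^ (2 * m + 2) - 1 ∈ q := by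
  have hfin : Finite (𝓞 F ⧸ q) := Ideal.finiteQuotientOfFreeOfNeBot q hq
  have hu : IsUnit (Ideal.Quotient.mk q y) := by
    have h1 : (1 : 𝓞 F) ∈ Ideal.span {y} ⊔ q := by
      rw [hy]
      exact Submodule.mem_top
    obtain ⟨a, ha, b, hb, hab⟩ := Submodule.mem_sup.1 h1
    obtain ⟨c, rfl⟩ := Ideal.mem_span_singleton'.1 ha
    have h2 : Ideal.Quotient.mk q c * Ideal.Quotient.mk q y = 1 := by
      have h3 := congrArg (Ideal.Quotient.mk q) hab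
      rw [map_add, Ideal.Quotient.eq_zero_iff_mem.2 hb, add_zero, map_mul, map_one] at h3
      exact h3
    exact IsUnit.of_mul_eq_one_right _ h2
  obtain ⟨u, hu⟩ := hu
  have hn : 0 < Nat.card (𝓞 F ⧸ q)ˣ := Nat.card_pos
  refine ⟨Nat.card (𝓞 F ⧸ q)ˣ - 1, ?_⟩
  have h1 : u ^ Nat.card (𝓞 F ⧸ q)ˣ = 1 := pow_card_eq_one'
  have h2 : 2 * (Nat.card (𝓞 F ⧸ q)ˣ - 1) + 2 = Nat.card (𝓞 F ⧸ q)ˣ * 2 := by omega
  rw [h2, ← Ideal.Quotient.eq_zero_iff_mem, map_sub, map_pow, map_one, ← hu, pow_mul, ← Units.val_pow_eq_pow_val, h1]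
  simp

theorem MAX (hEXT : EXT_stmt) : MAX_stmt := by
  intro F _ _ q χ hq
  let S : Set (Ideal (𝓞 F)) := {f | q ≤ f ∧ ∀ x y : 𝓞 F, x ≠ 0 → y ≠ 0 → Ideal.span {x} ⊔ q = ⊤ → Ideal.span {y} ⊔ q = ⊤ → x - y ∈ f →
    (∀ φ : F →+* ℝ, 0 < φ x * φ y) → χ (Ideal.span {x}) = χ (Ideal.span {y})}
  have hSq : q ∈ S := ⟨le_rfl, fun x y hx hy _ _ hxy hs => hq.per x y hx hy hxy hs⟩
  obtain ⟨f, hf, hmax⟩ := (wellFounded_gt (α := Ideal (𝓞 F))).has_min S ⟨q, hSq⟩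
  obtain ⟨χ', hχ', hext⟩ := hEXT F q f χ hq hf.1 hf.2
  refine ⟨f, χ', hf.1, ?_, hext⟩
  refine ⟨hχ'.q0, hχ'.bot, hχ'.one, hχ'.mul, hχ'.unit, hχ'.zero, fun _ _ => rfl, ?_, ?_⟩
  · intro x y hx hy hxy hs
    rw [MAX_Ar, MAX_Ar, mul_one, mul_one]
    exact hχ'.per x y hx hy hxy hs
  · intro g hfg
    have hqg : q ≤ g := hf.1.trans hfg.le
    have hg : g ∉ S := fun hgS => hmax g hgS hfg
    have hg' : ∃ x y : 𝓞 F, x ≠ 0 ∧ y ≠ 0 ∧ Ideal.span {x} ⊔ q = ⊤ ∧ Ideal.span {y} ⊔ q = ⊤ ∧ x - y ∈ g ∧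
        (∀ φ : F →+* ℝ, 0 < φ x * φ y) ∧ χ (Ideal.span {x}) ≠ χ (Ideal.span {y}) := by
      by_contra hc
      apply hg
      refine ⟨hqg, fun x y hx hy hxq hyq hxy hs => ?_⟩
      by_contra hne
      exact hc ⟨x, y, hx, hy, hxq, hyq, hxy, hs, hne⟩
    obtain ⟨x, y, hx, hy, hxq, hyq, hxy, hs, hne⟩ := hg'
    obtain ⟨m, hm⟩ := MAX_pow F q hq.q0 y hyq
    have hX0 : x * y ^ (2 * m + 1) ≠ 0 := mul_ne_zero hx (pow_ne_zero _ hy)
    have hcop : Ideal.span {x * y ^ (2 * m + 1)} ⊔ q = ⊤ := by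
      rw [← Ideal.isCoprime_iff_sup_eq, ← Ideal.span_singleton_mul_span_singleton, ← Ideal.span_singleton_pow]
      exact IsCoprime.mul_left (Ideal.isCoprime_iff_sup_eq.2 hxq) ((Ideal.isCoprime_iff_sup_eq.2 hyq).pow_left)
    have hφ0 : ∀ φ : F →+* ℝ, φ (y : F) ≠ 0 := by
      intro φ h0
      have := hs φ
      rw [h0, mul_zero] at this
      exact lt_irrefl _ this
    have hyk : χ (Ideal.span {y}) ^ (2 * m + 2) = 1 := by
      rw [← MAX_map_pow F χ hq.one hq.mul, ← hq.one, ← Ideal.span_singleton_one]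
      refine hq.per _ _ (pow_ne_zero _ hy) one_ne_zero hm (fun φ => ?_)
      have h1 : ((y ^ (2 * m + 2) : 𝓞 F) : F) = (y : F) ^ (2 * m + 2) := map_pow (algebraMap (𝓞 F) F) y (2 * m + 2)
      have h2 : ((1 : 𝓞 F) : F) = 1 := map_one (algebraMap (𝓞 F) F)
      rw [h1, h2, map_pow, map_one, mul_one, show 2 * m + 2 = 2 * (m + 1) by ring, pow_mul]
      have := hφ0 φ
      positivity
    have hy0 : χ (Ideal.span {y}) ≠ 0 := by
      intro h0
      rw [h0, zero_pow (by omega)] at hyk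
      exact zero_ne_one hyk
    refine ⟨x * y ^ (2 * m + 1), hX0, ?_, ?_, ?_, ?_⟩
    · have e : x * y ^ (2 * m + 1) - 1 = (x - y) * y ^ (2 * m + 1) + (y ^ (2 * m + 2) - 1) := by ring
      rw [e]
      exact g.add_mem (g.mul_mem_right _ hxy) (hqg hm)
    · rw [eq_top_iff, ← hcop]
      exact sup_le_sup_left hf.1 _
    · intro φ
      have h1 : ((x * y ^ (2 * m + 1) : 𝓞 F) : F) = (x : F) * (y : F) ^ (2 * m + 1) := by
        rw [show ((x * y ^ (2 * m + 1) : 𝓞 F) : F) = algebraMap (𝓞 F) F (x * y ^ (2 * m + 1)) from rfl, map_mul, map_pow]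
      rw [h1, map_mul, map_pow]
      have h2 : φ (x : F) * φ (y : F) ^ (2 * m + 1) = (φ (x : F) * φ (y : F)) * (φ (y : F) ^ 2) ^ m := by ring
      rw [h2]
      have h3 := hφ0 φ
      have h4 := hs φ
      positivity
    · rw [MAX_Ar, hext _ (by rwa [Ne, Ideal.span_singleton_eq_bot]) hcop, ← Ideal.span_singleton_mul_span_singleton, hq.mul,
        MAX_map_pow F χ hq.one hq.mul]
      intro h
      apply hne
      have h5 : χ (Ideal.span {x}) * χ (Ideal.span {y}) ^ (2 * m + 1) = χ (Ideal.span {y}) * χ (Ideal.span {y}) ^ (2 * m + 1) := by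
        rw [h, ← pow_succ', hyk]
      exact mul_right_cancel₀ (pow_ne_zero _ hy0) h5

end Pool.Agent.CH
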