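import Pool.Agent.helper17.CH.SpecV

/-!
# Project CH, row STE
-/

set_option autoImplicit false

namespace Pool.Agent.CH

open Finset

/-- Translation of one power sum. -/
private theorem STE_pow {r : ℕ} (z : Fin r → ℤ) (c : ℤ) (j : ℕ) :
    ∑ i, (z i - c) ^ j = ∑ t ∈ range (j + 1), (∑ i, z i ^ t) * ((-c) ^ (j - t) * (j.choose t : ℤ)) := by
  calc ∑ i, (z i - c) ^ j
      = ∑ i, ∑ t ∈ range (j + 1), z i ^ t * ((-c) ^ (j - t) * (j.choose t : ℤ)) := by
        refine Finset.sum_congr rfl fun i _ => ?_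
        rw [sub_eq_add_neg, add_pow]
        exact Finset.sum_congr rfl fun t _ => by ring
    _ = ∑ t ∈ range (j + 1), ∑ i, z i ^ t * ((-c) ^ (j - t) * (j.choose t : ℤ)) :=
        Finset.sum_comm
    _ = _ := Finset.sum_congr rfl fun t _ => by rw [Finset.sum_mul]

/-- Translation of the system. -/
private theorem STE_shift {k s : ℕ} (m n : Fin k → ℤ) (x y : Fin s → ℤ) (c : ℤ)
    (h : ∀ j ∈ Icc 1 k, ∑ i, m i ^ j + ∑ i, x i ^ j = ∑ i, n i ^ j + ∑ i, y i ^ j) :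
    ∀ j ∈ Icc 1 k, ∑ i, (m i - c) ^ j + ∑ i, (x i - c) ^ j =
      ∑ i, (n i - c) ^ j + ∑ i, (y i - c) ^ j := by
  intro j hj
  rw [Finset.mem_Icc] at hj
  rw [STE_pow, STE_pow, STE_pow, STE_pow, ← Finset.sum_add_distrib, ← Finset.sum_add_distrib]
  refine Finset.sum_congr rfl fun t ht => ?_
  rw [Finset.mem_range] at ht
  rw [← add_mul, ← add_mul]
  congr 1
  rcases Nat.eq_zero_or_pos t with rfl | ht0
  · simp
  · exact h t (Finset.mem_Icc.mpr ⟨ht0, by omega⟩)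

/-- One residue class. -/
private theorem STE_class (hLIN : LIN_stmt) (hJB : JB_stmt) (s k p X : ℕ) (hp : p.Prime)
    (hk : k < p) (hX : X ≤ p ^ k) (a : ℕ) (ha : a < p) :
    Q4 s k (DM k p X) ((Ioc 0 (X : ℤ)).filter fun x => x % (p : ℤ) = (a : ℤ)) ≤
      X ^ k * (k.factorial * p ^ (k * (k - 1) / 2)) * JV s k (X / p + 1) := by
  obtain ⟨_, _, hJ3, _, _, _⟩ := hJB
  have hp0 : (0 : ℤ) < (p : ℤ) := by exact_mod_cast hp.pos
  set c : ℤ := (a : ℤ) - p with hc
  set M : Finset (Fin k → ℤ) := DM k p X with hM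
  set B : Finset ℤ := (Ioc 0 (X : ℤ)).filter fun x => x % (p : ℤ) = (a : ℤ) with hB
  -- the pairs (m, n)
  set T : Finset ((Fin k → ℤ) × (Fin k → ℤ)) := (M ×ˢ M).filter fun w =>
    ∀ j ∈ Icc 1 k, (p : ℤ) ^ j ∣ ∑ i, (w.1 i - c) ^ j - ∑ i, (w.2 i - c) ^ j with hT
  have hMmem : ∀ m ∈ M, (∀ i, m i ∈ Ioc 0 (X : ℤ)) ∧
      ∀ i i' : Fin k, i ≠ i' → ¬ (p : ℤ) ∣ m i - m i' := by
    intro m hm
    rw [hM, DM, Finset.mem_filter, Fintype.mem_piFinset] at hm
    exact hm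
  have hMcard : #M ≤ X ^ k := by
    rw [hM, DM]
    refine (Finset.card_filter_le _ _).trans (le_of_eq ?_)
    rw [Fintype.card_piFinset]
    simp
  have hTcard : #T ≤ (k.factorial * p ^ (k * (k - 1) / 2)) * X ^ k := by
    have h1 : #T ≤ (k.factorial * p ^ (k * (k - 1) / 2)) * #(T.image Prod.snd) := by
      refine Finset.card_le_mul_card_image T _ ?_
      intro n hn
      refine le_trans ?_ (hLIN k p (-c) (fun j => ∑ i, (n i - c) ^ j) hp hk)
      refine Finset.card_le_card_of_injOn (fun w => fun i => w.1 i - c) ?_ ?_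
      · intro w hw
        rw [Finset.mem_coe, Finset.mem_filter, hT, Finset.mem_filter, Finset.mem_product] at hw
        obtain ⟨⟨⟨hw1, _⟩, hw3⟩, hw4⟩ := hw
        obtain ⟨hm1, hm2⟩ := hMmem _ hw1
        rw [Finset.mem_coe, Finset.mem_filter, Fintype.mem_piFinset]
        refine ⟨fun i => ?_, fun i i' hii' hd => ?_, fun j hj => ?_⟩
        · have h5 := Finset.mem_Ioc.mp (hm1 i)
          have h6 : (X : ℤ) ≤ (p : ℤ) ^ k := by exact_mod_cast hX
          rw [Finset.mem_Ioc]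
          constructor
          · linarith [h5.1]
          · linarith [h5.2]
        · refine hm2 i i' hii' ?_
          have h7 : w.1 i - c - (w.1 i' - c) = w.1 i - w.1 i' := by ring
          rw [← h7]
          exact hd
        · have := hw3 j hj
          rw [hw4] at this
          exact this
      · intro w hw w' hw' hww
        rw [Finset.mem_coe, Finset.mem_filter] at hw hw'
        refine Prod.ext ?_ (hw.2.trans hw'.2.symm)
        funext i
        have := congrFun hww i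
        simp only at this
        linarith
    refine h1.trans (Nat.mul_le_mul_left _ ?_)
    refine le_trans (Finset.card_le_card ?_) hMcard
    intro n hn
    rw [Finset.mem_image] at hn
    obtain ⟨w, hw, rfl⟩ := hn
    rw [hT, Finset.mem_filter, Finset.mem_product] at hw
    exact hw.1.2
  -- the class members
  have hBmem : ∀ x ∈ B, x / (p : ℤ) + 1 ∈ Ioc (0 : ℤ) ((X / p + 1 : ℕ) : ℤ) ∧
      x - c = (p : ℤ) * (x / (p : ℤ) + 1) := by
    intro x hx
    rw [hB, Finset.mem_filter, Finset.mem_Ioc] at hx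
    obtain ⟨⟨hx1, hx2⟩, hx3⟩ := hx
    have h1 : 0 ≤ x / (p : ℤ) := Int.ediv_nonneg hx1.le hp0.le
    have h2 : x / (p : ℤ) ≤ (X : ℤ) / (p : ℤ) := Int.ediv_le_ediv hp0 hx2
    have h3 : ((X / p + 1 : ℕ) : ℤ) = (X : ℤ) / (p : ℤ) + 1 := by push_cast; rfl
    refine ⟨?_, ?_⟩
    · rw [Finset.mem_Ioc, h3]
      constructor
      · linarith
      · linarith
    · have h4 := Int.mul_ediv_add_emod x (p : ℤ)
      rw [hx3] at h4
      rw [hc]
      linarith
  have hfin : ∀ S : Finset (((Fin k → ℤ) × (Fin k → ℤ)) × ((Fin s → ℤ) × (Fin s → ℤ))),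
      (∀ w ∈ S, (w.1.1 ∈ M ∧ w.1.2 ∈ M) ∧ (∀ i, w.2.1 i ∈ B) ∧ (∀ i, w.2.2 i ∈ B) ∧
        ∀ j ∈ Icc 1 k, ∑ i, w.1.1 i ^ j + ∑ i, w.2.1 i ^ j =
          ∑ i, w.1.2 i ^ j + ∑ i, w.2.2 i ^ j) →
      #S ≤ JV s k (X / p + 1) * #T := by
    intro S hS
    have hSmem : ∀ w ∈ S, (w.1.1 ∈ M ∧ w.1.2 ∈ M) ∧ (∀ i, w.2.1 i ∈ B) ∧ (∀ i, w.2.2 i ∈ B) ∧
        ∀ j ∈ Icc 1 k, ∑ i, (w.1.1 i - c) ^ j + (p : ℤ) ^ j * ∑ i, (w.2.1 i / (p : ℤ) + 1) ^ j =
          ∑ i, (w.1.2 i - c) ^ j + (p : ℤ) ^ j * ∑ i, (w.2.2 i / (p : ℤ) + 1) ^ j := by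
      intro w hw
      obtain ⟨⟨h1, h2⟩, h3, h4, h5⟩ := hS w hw
      refine ⟨⟨h1, h2⟩, h3, h4, fun j hj => ?_⟩
      have h6 := STE_shift w.1.1 w.1.2 w.2.1 w.2.2 c h5 j hj
      rw [Finset.mul_sum, Finset.mul_sum]
      have h7 : ∀ z : Fin s → ℤ, (∀ i, z i ∈ B) →
          ∑ i, (z i - c) ^ j = ∑ i, (p : ℤ) ^ j * (z i / (p : ℤ) + 1) ^ j := by
        intro z hz
        refine Finset.sum_congr rfl fun i _ => ?_
        rw [(hBmem _ (hz i)).2, mul_pow]
      rw [← h7 _ h3, ← h7 _ h4]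
      exact h6
    have h1 : #S ≤ JV s k (X / p + 1) * #(S.image Prod.fst) := by
      refine Finset.card_le_mul_card_image S _ ?_
      intro mn hmn
      refine le_trans ?_ (hJ3 s k (Ioc 0 ((X / p + 1 : ℕ) : ℤ))
        (fun j => (∑ i, (mn.2 i - c) ^ j - ∑ i, (mn.1 i - c) ^ j) / (p : ℤ) ^ j))
      refine Finset.card_le_card_of_injOn
        (fun w => (fun i => w.2.1 i / (p : ℤ) + 1, fun i => w.2.2 i / (p : ℤ) + 1)) ?_ ?_
      · intro w hw
        rw [Finset.mem_coe, Finset.mem_filter] at hw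
        obtain ⟨hwS, hwm⟩ := hw
        obtain ⟨_, h3, h4, h5⟩ := hSmem w hwS
        rw [Finset.mem_coe, Finset.mem_filter, Finset.mem_product, Fintype.mem_piFinset,
          Fintype.mem_piFinset]
        refine ⟨⟨fun i => (hBmem _ (h3 i)).1, fun i => (hBmem _ (h4 i)).1⟩, fun j hj => ?_⟩
        have h6 := h5 j hj
        rw [hwm] at h6
        have hpj : (p : ℤ) ^ j ≠ 0 := pow_ne_zero _ hp0.ne'
        have h7 : ∑ i, (mn.2 i - c) ^ j - ∑ i, (mn.1 i - c) ^ j =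
            (p : ℤ) ^ j * (∑ i, (w.2.1 i / (p : ℤ) + 1) ^ j - ∑ i, (w.2.2 i / (p : ℤ) + 1) ^ j) := by
          rw [mul_sub]
          linarith
        simp only
        rw [h7, Int.mul_ediv_cancel_left _ hpj]
        ring
      · intro w hw w' hw' hww
        rw [Finset.mem_coe, Finset.mem_filter] at hw hw'
        obtain ⟨hwS, hwm⟩ := hw
        obtain ⟨hwS', hwm'⟩ := hw'
        obtain ⟨_, h3, h4, _⟩ := hSmem w hwS
        obtain ⟨_, h3', h4', _⟩ := hSmem w' hwS'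
        rw [Prod.mk.injEq] at hww
        refine Prod.ext (hwm.trans hwm'.symm) (Prod.ext ?_ ?_)
        · funext i
          have e1 : w.2.1 i / (p : ℤ) + 1 = w'.2.1 i / (p : ℤ) + 1 := congrFun hww.1 i
          have e2 := (hBmem _ (h3 i)).2
          have e3 := (hBmem _ (h3' i)).2
          rw [e1] at e2
          linarith
        · funext i
          have e1 : w.2.2 i / (p : ℤ) + 1 = w'.2.2 i / (p : ℤ) + 1 := congrFun hww.2 i
          have e2 := (hBmem _ (h4 i)).2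
          have e3 := (hBmem _ (h4' i)).2
          rw [e1] at e2
          linarith
    refine h1.trans (Nat.mul_le_mul_left _ (Finset.card_le_card ?_))
    intro mn hmn
    rw [Finset.mem_image] at hmn
    obtain ⟨w, hw, rfl⟩ := hmn
    obtain ⟨⟨h1, h2⟩, _, _, h5⟩ := hSmem w hw
    rw [hT, Finset.mem_filter, Finset.mem_product]
    refine ⟨⟨h1, h2⟩, fun j hj => ?_⟩
    refine ⟨∑ i, (w.2.2 i / (p : ℤ) + 1) ^ j - ∑ i, (w.2.1 i / (p : ℤ) + 1) ^ j, ?_⟩
    have h6 := h5 j hj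
    rw [mul_sub]
    linarith
  rw [Q4]
  refine (hfin _ fun w hw => ?_).trans ?_
  · rw [Finset.mem_filter, Finset.mem_product, Finset.mem_product, Finset.mem_product,
      Fintype.mem_piFinset, Fintype.mem_piFinset] at hw
    exact ⟨hw.1.1, hw.1.2.1, hw.1.2.2, hw.2⟩
  calc JV s k (X / p + 1) * #T
      ≤ JV s k (X / p + 1) * ((k.factorial * p ^ (k * (k - 1) / 2)) * X ^ k) :=
        Nat.mul_le_mul_left _ hTcard
    _ = X ^ k * (k.factorial * p ^ (k * (k - 1) / 2)) * JV s k (X / p + 1) := by ring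

/-- Row STE. -/
theorem STE (hHOL : HOL_stmt) (hLIN : LIN_stmt) (hJB : JB_stmt) : STE_stmt := by
  intro s k p X hs hp hk hX
  refine (hHOL s k p (DM k p X) (Ioc 0 (X : ℤ)) hs hp.one_le).trans ?_
  have h1 : ∑ a ∈ range p, Q4 s k (DM k p X)
      ((Ioc 0 (X : ℤ)).filter fun x => x % (p : ℤ) = (a : ℤ)) ≤
      ∑ _a ∈ range p, X ^ k * (k.factorial * p ^ (k * (k - 1) / 2)) * JV s k (X / p + 1) :=
    Finset.sum_le_sum fun a ha =>
      STE_class hLIN hJB s k p X hp hk hX a (Finset.mem_range.mp ha)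
  rw [Finset.sum_const, Finset.card_range, smul_eq_mul] at h1
  refine (Nat.mul_le_mul_left _ h1).trans (le_of_eq ?_)
  have h2 : p ^ (2 * s) = p ^ (2 * s - 1) * p := by
    rw [← pow_succ]
    congr 1
    omega
  rw [h2]
  ring

end Pool.Agent.CH
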